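import Pool.Agent.Lib.MP_0c2f33_an.Approx
import Pool.Agent.Lib.MP_0c2f33_an.LimMain
import Pool.Agent.Lib.MP_0c2f33_an.NegMain

set_option autoImplicit false

namespace Pool.Agent.Results.MP_0c2f33_an.Threshold

open scoped ENNReal

/-- For an admissible triple `(d, p, q)`, and also at the endpoint `1/p + 1/q = 1`, a
distributional solution that is not parabolic exists exactly when `2/p + 1/q > 1`. -/
theorem result (d : ℕ) (hd : 2 ≤ d) (T : ℝ) (hT : 0 < T) (p q : ℝ≥0∞) (hp : 1 ≤ p) (hq : 2 ≤ q)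
    (h1 : 2⁻¹ < p⁻¹ + q⁻¹) (h2 : p⁻¹ + q⁻¹ ≤ 1) :
    AdvDiff.NonParabolicExists d T p q ↔ 1 < 2 * p⁻¹ + q⁻¹ := by
  have hp0 : p ≠ 0 := by rintro rfl; simp at hp
  constructor
  · rintro ⟨b, u₀, u, hb, hdiv, h0, hu, hsol, hnp⟩
    by_contra hle
    push Not at hle
    refine hnp (AdvDiff.parabolic_of_le hT hq ?_ hle hb hdiv h0 hu hsol)
    rintro rfl
    simp only [ENNReal.inv_top, add_zero] at h1 hle
    have h3 : 2 * (2 : ℝ≥0∞)⁻¹ < 2 * p⁻¹ := ENNReal.mul_lt_mul_right (by simp) (by simp) h1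
    rw [ENNReal.mul_inv_cancel (by simp) (by simp)] at h3
    exact absurd hle (not_le.2 h3)
  · intro h
    have hpt : p ≠ ⊤ := by
      rintro rfl
      simp only [ENNReal.inv_top, zero_add] at h1
      exact absurd (ENNReal.inv_le_inv.2 hq) (not_le.2 h1)
    obtain ⟨A⟩ := AdvDiff.exists_approx hT hp0 hpt hq h
    exact AdvDiff.nonParabolic_of_approx hd hT hq h2 A

end Pool.Agent.Results.MP_0c2f33_an.Threshold
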